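import Pool.Agent.T9h97.RB.Spec

set_option autoImplicit false

namespace Pool.Agent.T9h29.RB

open Pool.Agent.T9h97.RB

theorem first_part (S Q a : ℝ) (hS : 0 ≤ S) (hQ : 32 ≤ Q) (hSQ : 90000 * S ≤ Q ^ 2)
    (ha0 : 0 ≤ a) (ha : a ≤ 2 / Q) :
    44 / 10 * (90 * S * (3 * a ^ 3 + a ^ 4 / (1 - a))) ≤ 11 / 100 / Q := by
  have hQ0 : 0 < Q := by linarith
  have h1 : a ≤ 1 / 16 := by
    refine ha.trans ?_
    rw [div_le_div_iff₀ hQ0 (by norm_num)]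
    linarith
  have h3 : a ^ 3 ≤ 8 / Q ^ 3 := by
    have := pow_le_pow_left₀ ha0 ha 3
    calc a ^ 3 ≤ (2 / Q) ^ 3 := this
      _ = 8 / Q ^ 3 := by rw [div_pow]; norm_num
  have h4 : a ^ 4 / (1 - a) ≤ 1 / Q ^ 3 := by
    rw [div_le_iff₀ (by linarith)]
    have h5 : a ^ 4 ≤ a * (8 / Q ^ 3) := by
      calc a ^ 4 = a * a ^ 3 := by ring
        _ ≤ a * (8 / Q ^ 3) := mul_le_mul_of_nonneg_left h3 ha0
    have h6 : a * (8 / Q ^ 3) = (8 * a) * (1 / Q ^ 3) := by ring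
    have h7 : (8 * a) * (1 / Q ^ 3) ≤ (1 - a) * (1 / Q ^ 3) :=
      mul_le_mul_of_nonneg_right (by linarith) (by positivity)
    linarith
  have h8 : 3 * a ^ 3 + a ^ 4 / (1 - a) ≤ 25 / Q ^ 3 := by
    have : (25 : ℝ) / Q ^ 3 = 3 * (8 / Q ^ 3) + 1 / Q ^ 3 := by ring
    linarith
  have h9 : 90 * S * (3 * a ^ 3 + a ^ 4 / (1 - a)) ≤ 90 * S * (25 / Q ^ 3) :=
    mul_le_mul_of_nonneg_left h8 (by positivity)
  have h10 : 44 / 10 * (90 * S * (25 / Q ^ 3)) ≤ 11 / 100 / Q := by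
    have e : 44 / 10 * (90 * S * (25 / Q ^ 3)) = (9900 * S) / Q ^ 3 := by ring
    rw [e, div_le_div_iff₀ (by positivity) hQ0]
    nlinarith
  linarith

theorem second_part (S : ℕ) (n Q b : ℝ) (hn : 2 ^ 50 ≤ n) (hS1 : n ^ 2 ≤ S)
    (hS2 : (S : ℝ) ≤ (n + 1) ^ 2) (hQ : Q = 300 * (n + 1)) (hb0 : 0 ≤ b)
    (hb : b ≤ 1 - 1 / (2 * Q)) :
    44 / 10 * (90 * S * (S * b ^ S + b ^ (S + 1) / (1 - b))) ≤ 3 / 10 / Q := by
  have hn1 : (0 : ℝ) < n := by linarith [show (0 : ℝ) < 2 ^ 50 by norm_num]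
  have hN : (0 : ℝ) < n + 1 := by linarith
  have hQ0 : 0 < Q := by rw [hQ]; linarith
  have hq : 0 < 1 / (2 * Q) := by positivity
  have hb1 : 1 / (2 * Q) ≤ 1 - b := by linarith
  have hb2 : b ≤ 1 := by linarith
  -- E
  have hE1 : b ^ S ≤ Real.exp (-(n / 601)) := by
    have h1 : b ≤ Real.exp (-(1 / (2 * Q))) := by
      refine hb.trans ?_
      have := Real.add_one_le_exp (-(1 / (2 * Q)))
      linarith
    have h2 : b ^ S ≤ Real.exp (-(1 / (2 * Q))) ^ S := pow_le_pow_left₀ hb0 h1 S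
    refine h2.trans ?_
    rw [← Real.exp_nat_mul]
    apply Real.exp_le_exp.mpr
    have h3 : n / 601 ≤ (S : ℝ) * (1 / (2 * Q)) := by
      rw [hQ]
      have e : (S : ℝ) * (1 / (2 * (300 * (n + 1)))) = S / (600 * (n + 1)) := by
        field_simp
        ring
      rw [e, div_le_div_iff₀ (by norm_num) (by positivity)]
      nlinarith [show (600 : ℝ) ≤ n by linarith [show (600 : ℝ) ≤ 2 ^ 50 by norm_num]]
    linarith
  have hE2 : Real.exp (-(n / 601)) * (n + 1) ^ 5 * 792000 ≤ 1 := by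
    rw [Real.exp_neg]
    have h1 : (n / 601) ^ 8 / (Nat.factorial 8 : ℝ) ≤ Real.exp (n / 601) :=
      Real.pow_div_factorial_le_exp (n / 601) (by positivity) 8
    have h2 : (n + 1) ^ 5 * 792000 ≤ (n / 601) ^ 8 / (Nat.factorial 8 : ℝ) := by
      have h3 : (n + 1) ≤ 2 * n := by
        linarith [show (1 : ℝ) ≤ 2 ^ 50 by norm_num]
      have h4 : (n + 1) ^ 5 ≤ (2 * n) ^ 5 := pow_le_pow_left₀ hN.le h3 5
      have h5 : (Nat.factorial 8 : ℝ) = 40320 := by norm_num [Nat.factorial]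
      rw [h5]
      have h6 : (2 ^ 50 : ℝ) ^ 3 ≤ n ^ 3 := pow_le_pow_left₀ (by norm_num) hn 3
      have h7 : (2 * n) ^ 5 * 792000 ≤ (n / 601) ^ 8 / 40320 := by
        have e : (n / 601) ^ 8 / 40320 = n ^ 5 * (n ^ 3 / (601 ^ 8 * 40320)) := by
          field_simp
        have e2 : (2 * n) ^ 5 * 792000 = n ^ 5 * (32 * 792000) := by ring
        rw [e, e2]
        apply mul_le_mul_of_nonneg_left _ (by positivity)
        rw [le_div_iff₀ (by norm_num)]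
        refine le_trans ?_ h6
        norm_num
      linarith [mul_le_mul_of_nonneg_right h4 (show (0 : ℝ) ≤ 792000 by norm_num)]
    have h8 : (n + 1) ^ 5 * 792000 ≤ Real.exp (n / 601) := h2.trans h1
    have h9 : 0 < Real.exp (n / 601) := Real.exp_pos _
    calc (Real.exp (n / 601))⁻¹ * (n + 1) ^ 5 * 792000
        = ((n + 1) ^ 5 * 792000) / Real.exp (n / 601) := by
          rw [div_eq_mul_inv]; ring
      _ ≤ 1 := by rw [div_le_one h9]; exact h8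
  have hE0 : 0 ≤ b ^ S := by positivity
  have hE3 : b ^ S * (n + 1) ^ 5 * 792000 ≤ 1 := by
    refine le_trans ?_ hE2
    have : b ^ S * ((n + 1) ^ 5 * 792000) ≤ Real.exp (-(n / 601)) * ((n + 1) ^ 5 * 792000) :=
      mul_le_mul_of_nonneg_right hE1 (by positivity)
    linarith
  have h1 : b ^ (S + 1) / (1 - b) ≤ b ^ S * (2 * Q) := by
    rw [div_le_iff₀ (by linarith)]
    have h2 : b ^ (S + 1) ≤ b ^ S := by
      rw [pow_succ]
      exact mul_le_of_le_one_right hE0 hb2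
    have h3 : 1 ≤ 2 * Q * (1 - b) := by
      have := mul_le_mul_of_nonneg_left hb1 (show 0 ≤ 2 * Q by linarith)
      have e : 2 * Q * (1 / (2 * Q)) = 1 := by field_simp
      linarith
    calc b ^ (S + 1) ≤ b ^ S * 1 := by linarith
      _ ≤ b ^ S * (2 * Q * (1 - b)) := mul_le_mul_of_nonneg_left h3 hE0
      _ = b ^ S * (2 * Q) * (1 - b) := by ring
  have h2 : (S : ℝ) * b ^ S + b ^ (S + 1) / (1 - b) ≤ 2 * (n + 1) ^ 2 * b ^ S := by
    have h3 : (S : ℝ) * b ^ S ≤ (n + 1) ^ 2 * b ^ S := mul_le_mul_of_nonneg_right hS2 hE0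
    have h4 : b ^ S * (2 * Q) ≤ b ^ S * (n + 1) ^ 2 := by
      apply mul_le_mul_of_nonneg_left _ hE0
      rw [hQ]
      nlinarith [show (600 : ℝ) ≤ n by linarith [show (600 : ℝ) ≤ 2 ^ 50 by norm_num]]
    linarith
  have h3 : 90 * (S : ℝ) * (S * b ^ S + b ^ (S + 1) / (1 - b)) ≤
      90 * (n + 1) ^ 2 * (2 * (n + 1) ^ 2 * b ^ S) := by
    apply mul_le_mul _ h2 _ (by positivity)
    · linarith
    · have : 0 ≤ b ^ (S + 1) / (1 - b) := div_nonneg (by positivity) (by linarith)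
      positivity
  have h4 : 44 / 10 * (90 * (n + 1) ^ 2 * (2 * (n + 1) ^ 2 * b ^ S)) ≤ 3 / 10 / Q := by
    rw [hQ, le_div_iff₀ (by positivity)]
    nlinarith [hE3]
  linarith

theorem s_num : S_Num := by
  intro S hS
  obtain ⟨n, hn⟩ : ∃ n, n = Nat.sqrt S := ⟨_, rfl⟩
  have h1 : n ^ 2 ≤ S := by rw [hn]; exact Nat.sqrt_le' S
  have h2 : S < (n + 1) ^ 2 := by rw [hn]; exact Nat.lt_succ_sqrt' S
  have h3 : 2 ^ 50 ≤ n := by
    rw [hn, Nat.le_sqrt']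
    calc (2 ^ 50) ^ 2 = 2 ^ 100 := by norm_num
      _ ≤ S := hS
  have r1 : (n : ℝ) ^ 2 ≤ S := by exact_mod_cast h1
  have r2 : (S : ℝ) ≤ ((n : ℝ) + 1) ^ 2 := by exact_mod_cast h2.le
  have r3 : (2 : ℝ) ^ 50 ≤ n := by exact_mod_cast h3
  have hn0 : (600 : ℝ) ≤ n := by linarith [show (600 : ℝ) ≤ 2 ^ 50 by norm_num]
  refine ⟨300 * (n + 1), by omega, 1 + 1 / ((300 * (n + 1) : ℕ) : ℝ), ?_⟩
  obtain ⟨Q, hQ⟩ : ∃ Q : ℝ, Q = ((300 * (n + 1) : ℕ) : ℝ) := ⟨_, rfl⟩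
  rw [Par, ← hQ]
  have hQe : Q = 300 * ((n : ℝ) + 1) := by rw [hQ]; push_cast; ring
  have hQ32 : 32 ≤ Q := by rw [hQe]; linarith
  have hQ0 : 0 < Q := by linarith
  obtain ⟨a, ha⟩ : ∃ a : ℝ, a = 2 * (Q - 1) / Q ^ 2 * (1 + 1 / Q) := ⟨_, rfl⟩
  obtain ⟨b, hb⟩ : ∃ b : ℝ, b = (1 - 2 * (Q - 1) / Q ^ 2) * (1 + 1 / Q) := ⟨_, rfl⟩
  rw [← ha, ← hb]
  have ea : a = 2 / Q - 2 / Q ^ 3 := by
    rw [ha]
    field_simp
    ring
  have eb : b = 1 - 1 / Q + 2 / Q ^ 3 := by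
    rw [hb]
    field_simp
    ring
  have hc : 0 < 2 / Q ^ 3 := by positivity
  have hd : 2 / Q ^ 3 ≤ 1 / (2 * Q) := by
    rw [div_le_div_iff₀ (by positivity) (by positivity)]
    nlinarith [mul_pos hQ0 hQ0, mul_nonneg hQ0.le (sub_nonneg.mpr hQ32)]
  have he : 1 / Q = 2 * (1 / (2 * Q)) := by field_simp
  have hf : 2 / Q = 4 * (1 / (2 * Q)) := by field_simp; norm_num
  have hg : 0 < 1 / (2 * Q) := by positivity
  have hh : 1 / (2 * Q) ≤ 1 / 64 := by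
    apply one_div_le_one_div_of_le (by norm_num); linarith
  have ha0 : 0 ≤ a := by rw [ea, hf]; linarith
  have ha1 : a ≤ 2 / Q := by rw [ea]; linarith
  have hb0 : 0 ≤ b := by rw [eb, he]; linarith
  have hb1 : b ≤ 1 - 1 / (2 * Q) := by rw [eb, he]; linarith
  have hSQ : 90000 * (S : ℝ) ≤ Q ^ 2 := by
    rw [hQe]; nlinarith
  have f1 := first_part S Q a (by positivity) hQ32 hSQ ha0 ha1
  have f2 := second_part S n Q b r3 r1 r2 hQe hb0 hb1
  refine ⟨?_, ?_, ?_, ?_, ?_⟩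
  · rw [he]; linarith
  · rw [he]; linarith
  · refine lt_of_le_of_lt ha1 ?_
    rw [hf]; linarith
  · linarith
  · have e1 : 1 - 1 / (1 + 1 / Q) = 1 / (Q + 1) := by
      field_simp
      ring
    rw [e1]
    have e2 : 11 / 100 / Q + 3 / 10 / Q ≤ 1 / (Q + 1) := by
      have : 11 / 100 / Q + 3 / 10 / Q = (41 / 100) / Q := by ring
      rw [this, div_le_div_iff₀ hQ0 (by linarith)]
      linarith
    push_cast
    linarith [f1, f2, e2]

end Pool.Agent.T9h29.RB
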